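import Pool.Agent.W345.GK.TF

/-!
# Project GK (MP_a90b0f_nt): a symmetric polynomial times the Vandermonde alternant is a combination
of alternants
-/

set_option autoImplicit false

open Finset

namespace Pool.Agent.W924.GK.TA4

open Pool.Agent.W345.GK

variable {L : Type} [Field L] {n : ℕ}

/-- exponent vectors -/
noncomputable abbrev E (s : Fin n → ℕ) : Fin n →₀ ℕ := Finsupp.equivFunOnFinite.symm s

theorem E_apply (s : Fin n → ℕ) (i : Fin n) : E s i = s i := rfl

theorem E_inj {s t : Fin n → ℕ} (h : E s = E t) : s = t := by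
  funext i
  rw [← E_apply s, h, E_apply]

theorem prod_X (s : Fin n → ℕ) (σ : Equiv.Perm (Fin n)) :
    ∏ i, (MvPolynomial.X (σ i) : MvPolynomial (Fin n) L) ^ s i =
      MvPolynomial.monomial (E (s ∘ ⇑σ⁻¹)) 1 := by
  rw [MvPolynomial.monomial_eq, MvPolynomial.C_1, one_mul, Finsupp.prod_fintype _ _ (by simp)]
  rw [← Equiv.prod_comp σ (fun i => (MvPolynomial.X i : MvPolynomial (Fin n) L) ^
    (E (s ∘ ⇑σ⁻¹)) i)]
  refine Finset.prod_congr rfl fun i _ => ?_
  rw [E_apply]
  simp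

theorem alt_eq (s : Fin n → ℕ) : (alt s : MvPolynomial (Fin n) L) =
    ∑ σ : Equiv.Perm (Fin n), ((Equiv.Perm.sign σ : ℤˣ) : ℤ) •
      MvPolynomial.monomial (E (s ∘ ⇑σ⁻¹)) 1 := by
  unfold alt
  rw [Matrix.det_apply]
  refine Finset.sum_congr rfl fun σ _ => ?_
  rw [Units.smul_def]
  congr 1
  exact prod_X s σ

theorem coeff_zsmul (a : ℤ) (g : MvPolynomial (Fin n) L) (t : Fin n →₀ ℕ) :
    MvPolynomial.coeff t (a • g) = a • MvPolynomial.coeff t g :=
  map_zsmul (MvPolynomial.coeffAddMonoidHom t) a g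

theorem coeff_symm {f : MvPolynomial (Fin n) L} (hf : f.IsSymmetric) (u : Fin n → ℕ)
    (τ : Equiv.Perm (Fin n)) : f.coeff (E (u ∘ τ)) = f.coeff (E u) := by
  have h1 := MvPolynomial.coeff_rename_mapDomain (⇑τ) τ.injective f (E (u ∘ τ))
  rw [hf τ] at h1
  rw [← h1]
  congr 1
  ext i
  rw [Finsupp.mapDomain_equiv_apply]
  rw [E_apply, E_apply]
  simp

/-- the exponents of the Vandermonde alternant -/
def dl (n : ℕ) : Fin n → ℕ := fun i => n - 1 - i

open Classical in
/-- one term of a coefficient -/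
noncomputable def Tm (f : MvPolynomial (Fin n) L) (s : Fin n → ℕ) (σ : Equiv.Perm (Fin n)) : L :=
  if dl n ∘ ⇑σ⁻¹ ≤ s then f.coeff (E (s - dl n ∘ ⇑σ⁻¹)) else 0

theorem coeff_F (f : MvPolynomial (Fin n) L) (s : Fin n → ℕ) :
    (DD L n * f).coeff (E s) =
      ∑ σ : Equiv.Perm (Fin n), ((Equiv.Perm.sign σ : ℤˣ) : ℤ) • Tm f s σ := by
  unfold DD
  rw [alt_eq, Finset.sum_mul, MvPolynomial.coeff_sum]
  refine Finset.sum_congr rfl fun σ _ => ?_
  rw [smul_mul_assoc, coeff_zsmul, MvPolynomial.coeff_monomial_mul', one_mul]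
  congr 1
  unfold Tm
  have h1 : (E ((fun i : Fin n => n - 1 - (i : ℕ)) ∘ ⇑σ⁻¹) ≤ E s) ↔ dl n ∘ ⇑σ⁻¹ ≤ s := Iff.rfl
  by_cases h : dl n ∘ ⇑σ⁻¹ ≤ s
  · rw [if_pos h, if_pos (h1.2 h)]
    congr 1
    ext i
    rfl
  · rw [if_neg h, if_neg (fun h2 => h (h1.1 h2))]

theorem Tm_equiv {f : MvPolynomial (Fin n) L} (hf : f.IsSymmetric) (s : Fin n → ℕ)
    (τ σ : Equiv.Perm (Fin n)) : Tm f (s ∘ τ) σ = Tm f s (τ * σ) := by
  unfold Tm
  have h1 : (dl n ∘ ⇑σ⁻¹ ≤ s ∘ τ) ↔ dl n ∘ ⇑(τ * σ)⁻¹ ≤ s := by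
    constructor
    · intro h x
      have := h (τ⁻¹ x)
      simpa using this
    · intro h x
      have := h (τ x)
      simpa using this
  have h2 : s ∘ τ - dl n ∘ ⇑σ⁻¹ = (s - dl n ∘ ⇑(τ * σ)⁻¹) ∘ τ := by
    funext x
    simp
  by_cases h : dl n ∘ ⇑σ⁻¹ ≤ s ∘ τ
  · rw [if_pos h, if_pos (h1.1 h), h2, coeff_symm hf]
  · rw [if_neg h, if_neg (fun h3 => h (h1.2 h3))]

theorem coeff_perm {f : MvPolynomial (Fin n) L} (hf : f.IsSymmetric) (s : Fin n → ℕ)
    (τ : Equiv.Perm (Fin n)) : (DD L n * f).coeff (E (s ∘ τ)) =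
      ((Equiv.Perm.sign τ : ℤˣ) : ℤ) • (DD L n * f).coeff (E s) := by
  rw [coeff_F, coeff_F, Finset.smul_sum, ← Equiv.sum_comp (Equiv.mulLeft τ)
    (fun σ => ((Equiv.Perm.sign τ : ℤˣ) : ℤ) • ((Equiv.Perm.sign σ : ℤˣ) : ℤ) • Tm f s σ)]
  refine Finset.sum_congr rfl fun σ _ => ?_
  rw [Tm_equiv hf, Equiv.coe_mulLeft, smul_smul]
  congr 1
  rw [Equiv.Perm.sign_mul]
  have h1 : ((Equiv.Perm.sign τ : ℤˣ) : ℤ) * ((Equiv.Perm.sign τ : ℤˣ) : ℤ) = 1 := by
    rw [← Units.val_mul, Int.units_mul_self, Units.val_one]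
  push_cast
  rw [← mul_assoc, h1, one_mul]

theorem coeff_rep {f : MvPolynomial (Fin n) L} (hf : f.IsSymmetric) (s : Fin n → ℕ)
    {i j : Fin n} (hij : i ≠ j) (hs : s i = s j) : (DD L n * f).coeff (E s) = 0 := by
  rw [coeff_F]
  have hsw : s ∘ Equiv.swap i j = s := by
    funext x
    simp only [Function.comp_apply]
    by_cases h1 : x = i
    · rw [h1, Equiv.swap_apply_left, hs]
    · by_cases h2 : x = j
      · rw [h2, Equiv.swap_apply_right, hs]
      · rw [Equiv.swap_apply_of_ne_of_ne h1 h2]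
  refine Finset.sum_involution (fun σ _ => Equiv.swap i j * σ) (fun σ _ => ?_) (fun σ _ _ => ?_)
    (fun σ _ => Finset.mem_univ _) (fun σ _ => ?_)
  · rw [← Tm_equiv hf, hsw, Equiv.Perm.sign_mul, Equiv.Perm.sign_swap hij]
    simp
  · intro h
    have h3 : Equiv.swap i j = 1 := by
      rwa [mul_eq_right] at h
    exact hij (Equiv.swap_eq_one_iff.1 h3)
  · rw [← mul_assoc, Equiv.swap_mul_self, one_mul]

theorem coeff_alt (s t : Fin n → ℕ) : (alt s : MvPolynomial (Fin n) L).coeff (E t) =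
    ∑ σ : Equiv.Perm (Fin n), ((Equiv.Perm.sign σ : ℤˣ) : ℤ) •
      (if s = t ∘ σ then (1 : L) else 0) := by
  rw [alt_eq, MvPolynomial.coeff_sum]
  refine Finset.sum_congr rfl fun σ _ => ?_
  rw [coeff_zsmul, MvPolynomial.coeff_monomial]
  congr 1
  have h1 : E (s ∘ ⇑σ⁻¹) = E t ↔ s = t ∘ σ := by
    constructor
    · intro h
      rw [← E_inj h]
      funext x
      simp
    · rintro rfl
      congr 1
      funext x
      simp
  by_cases h : s = t ∘ σ
  · rw [if_pos h, if_pos (h1.2 h)]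
  · rw [if_neg h, if_neg (fun h2 => h (h1.1 h2))]

theorem ta4 : S_TA4 := by
  classical
  intro L _ M n f hf hdeg
  ext t0
  obtain ⟨t, rfl⟩ : ∃ t : Fin n → ℕ, E t = t0 := ⟨⇑t0, by ext i; rfl⟩
  rw [MvPolynomial.coeff_sum]
  -- reorganise the right-hand side
  have hR : ∀ s : Fin n → Fin (M + 1),
      MvPolynomial.coeff (E t) ((DD L n * f).coeff (E fun i => (s i : ℕ)) •
        (alt fun i => (s i : ℕ) : MvPolynomial (Fin n) L)) =
      ∑ σ : Equiv.Perm (Fin n), if (fun i => (s i : ℕ)) = t ∘ σ then (DD L n * f).coeff (E t)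
        else 0 := by
    intro s
    rw [MvPolynomial.coeff_smul, coeff_alt, Finset.smul_sum]
    refine Finset.sum_congr rfl fun σ _ => ?_
    by_cases h : (fun i => (s i : ℕ)) = t ∘ σ
    · rw [if_pos h, if_pos h, h, coeff_perm hf, smul_eq_mul, zsmul_eq_mul, zsmul_eq_mul]
      have h1 : ((((Equiv.Perm.sign σ : ℤˣ) : ℤ) : L)) * (((Equiv.Perm.sign σ : ℤˣ) : ℤ) : L) =
          1 := by
        rw [← Int.cast_mul, ← Units.val_mul, Int.units_mul_self, Units.val_one, Int.cast_one]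
      rw [mul_one, mul_right_comm, h1, one_mul]
    · rw [if_neg h, if_neg h, smul_zero, smul_zero]
  rw [Finset.sum_congr rfl fun s _ => hR s]
  by_cases h0 : (DD L n * f).coeff (E t) = 0
  · rw [h0]
    symm
    refine Finset.sum_eq_zero fun s _ => Finset.sum_eq_zero fun σ _ => ?_
    split_ifs <;> rfl
  · -- `t` is injective with values at most `M`
    have hinj : Function.Injective t := by
      intro i j hij
      by_contra hne
      exact h0 (coeff_rep hf t hne hij)
    have hle : ∀ i, t i ≤ M := by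
      intro i
      have h1 : E t ∈ (DD L n * f).support := MvPolynomial.mem_support_iff.2 h0
      have h2 := MvPolynomial.monomial_le_degreeOf i h1
      rw [E_apply] at h2
      exact h2.trans (hdeg i)
    -- the sorting permutation
    obtain ⟨σ₀, hσ₀⟩ : ∃ σ₀ : Equiv.Perm (Fin n), StrictAnti (t ∘ σ₀) := by
      refine ⟨Fin.revPerm.trans (Tuple.sort t), ?_⟩
      have h1 : StrictMono (t ∘ Tuple.sort t) :=
        (Tuple.monotone_sort t).strictMono_of_injective
          (hinj.comp (Tuple.sort t).injective)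
      intro a b hab
      exact h1 (Fin.rev_lt_rev.2 hab)
    have huniq : ∀ σ : Equiv.Perm (Fin n), StrictAnti (t ∘ σ) → σ = σ₀ := by
      intro σ hσ
      have h1 : t ∘ σ = t ∘ σ₀ := Tuple.unique_antitone hσ.antitone hσ₀.antitone
      ext x
      have := congrFun h1 x
      exact congrArg Fin.val (hinj this)
    set s₀ : Fin n → Fin (M + 1) := fun i => ⟨t (σ₀ i), Nat.lt_succ_of_le (hle _)⟩ with hs₀
    have hs₀m : s₀ ∈ St n M := by
      unfold St
      refine Finset.mem_filter.2 ⟨Finset.mem_univ _, ?_⟩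
      intro a b hab
      exact hσ₀ hab
    rw [Finset.sum_eq_single s₀]
    · rw [Finset.sum_eq_single σ₀]
      · exact (if_pos rfl).symm
      · intro σ _ hne
        rw [if_neg]
        intro h
        apply hne
        apply huniq
        rw [← h]
        exact hσ₀
      · intro h
        exact absurd (Finset.mem_univ _) h
    · intro s hs hne
      refine Finset.sum_eq_zero fun σ _ => ?_
      rw [if_neg]
      intro h
      have h1 : StrictAnti s := by
        unfold St at hs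
        exact (Finset.mem_filter.1 hs).2
      have h2 : StrictAnti (t ∘ σ) := by
        rw [← h]
        intro a b hab
        exact h1 hab
      have h3 := huniq σ h2
      apply hne
      funext i
      apply Fin.ext
      have h4 := congrFun h i
      simp only [Function.comp_apply, h3] at h4
      exact h4
    · intro h
      exact absurd hs₀m h

end Pool.Agent.W924.GK.TA4
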